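import Pool.Agent.Q309.SFT.Main

/-!
# MP_abf503_lc

Every forcing notion preserves the existence of winning strategies of player II in the strong
countable fan tightness game on the spaces `C_p(X)`.
-/

set_option autoImplicit false

namespace Pool.Agent.Results.MP_abf503_lc.CpGamePreserved

open Pool.Agent.Helper669.Forcing Pool.Agent.Q309.SFT

universe u v

/-- The space `C_p(X)` of the continuous real functions on `X` with the topology of pointwise
convergence, that is, the topology as a subspace of the product `X → ℝ`. -/
abbrev Cp (X : Type v) [TopologicalSpace X] : Type v := {f : X → ℝ // Continuous f}

/-- Let `P` be any forcing notion and `X` a topological space. If for every `y` in `C_p(X)` player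
II has a winning strategy in the strong countable fan tightness game at `y`, then every condition
of `P` forces that for every `y` in the ground model space `C_p(X)` player II has a winning
strategy in this game at `y`, for the topology generated by the open sets of the ground model
space `C_p(X)`. -/
theorem result (P : Type u) [Preorder P] (X : Type v) [TopologicalSpace X]
    (h : ∀ y : Cp X, Wins y) : ∀ p : P, p ∈ fall fun y : Cp X => FWins P y :=
  fun p y => main (h y) p

end Pool.Agent.Results.MP_abf503_lc.CpGamePreserved
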